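import Pool.Agent.TH268.CD.Core3
import Pool.Agent.W761.CC.AtL

/-!
# Complete condensation in the canonical ensemble: the conclusion on one torus
-/

set_option autoImplicit false

open MeasureTheory
open scoped ENNReal

namespace Pool.Agent.TH268.CD

open Pool.Agent.W761.CB Pool.Agent.W761.CC Pool.Agent.TH268.CC

noncomputable section

theorem atL3 (hBOT : Pool.Agent.W160.CC.S_BOT2') (hLAM : S_LAM) (hEBC : S_EBC)
    (hS : S_STEP2) (hB : S_BASE2) (hM : S_MOM) (hH : S_HAT) (hR : S_REF)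
    (hSM : S_SM) (hG : S_GK) (hD : S_DIA) (hDE : S_DE) (hTF : S_TF)
    {n J : ℕ} {L ℓ : ℝ} [Fact (0 < L)] (hℓ : 0 < ℓ) (hL : L = 2 ^ J * ℓ) {μ : ℝ≥0∞}
    {K : (Fin n → ℝ) → ℝ≥0∞} {v : ℝ → ℝ≥0∞} (hK : Measurable K) (hv : Measurable v) {v₁ : ℝ}
    (hv0 : 0 ≤ v₁) (hv1 : ∫⁻ z : Fin n → ℝ, v (el z) ≤ ENNReal.ofReal v₁)
    {e' E Q tol Ca : ℝ} {N : ℕ} (he0 : 0 ≤ e') (hE : 0 ≤ E) (hQ : 0 ≤ Q)
    (htol : 0 ≤ tol) (hCa : 0 ≤ Ca) (htolE : E - e' ≤ tol * L ^ n)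
    {ψ : Multiset (Tor n L) → ℂ} (hψ : EB ψ) (hψs : ∀ S, Multiset.card S ≠ N → ψ S = 0)
    (hψ1 : nE volume ψ = 1)
    (hψN : nuE volume ψ = ENNReal.ofReal N) (hψE : en μ K v ψ ≤ ENNReal.ofReal E)
    (hψQ : nE volume (ag volume (fun _ => 1) ψ) ≤ ENNReal.ofReal Q)
    (hlow : ∀ F : Multiset (Tor n L) → ℂ, EB F → ENNReal.ofReal e' * nE volume F ≤
      en μ K v F + ENNReal.ofReal Ca * dm volume N F)
    {g e r₁ : ℝ} (hg : 0 < g) (he : 0 < e) (he1 : e ≤ 1 / 100) (hr₁0 : 0 < r₁)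
    (hr₁ : (N : ℝ) = r₁ * L ^ n) (hup : E ≤ g / 2 * r₁ ^ 2 * (1 + e / 2) * L ^ n)
    {P a a₂ : ℝ} (hP : 0 ≤ P) (hPe : P * (g * r₁) ≤ e) (ha0 : 0 ≤ a)
    (ha : a ≤ 2 / (g * r₁ ^ 2) * (1 + e)) (ha₂0 : 0 ≤ a₂) (ha₂ : a₂ ≤ e)
    (hcoh : ∀ F : Multiset (Tor n L) → ℂ, EB F → ENNReal.ofReal (ℓ ^ n) * nuE volume F ≤
      ∑ i, nE volume (ag volume (hf n L ℓ (2 ^ J) i) F) +
        ENNReal.ofReal (ℓ ^ n * P) * en μ K v F)
    (hHP : ∀ F : Multiset (Tor n L) → ℂ, EB F → ENNReal.ofReal (ℓ ^ n) *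
      ∑ i, ∫⁻ γ, ENNReal.ofReal (pf (((ms γ).map (hf n L ℓ (2 ^ J) i)).sum / (ℓ ^ n * r₁))) *
        ‖F (ms γ)‖ₑ ^ 2 ∂(lam (volume : Measure (Tor n L))) ≤
      ENNReal.ofReal a * en μ K v F + ENNReal.ofReal (a₂ * L ^ n) * nE volume F)
    {σ Γ X : ℝ} (hΓ : 0 < Γ) (hX0 : 0 ≤ X) (hσ : 0 < σ)
    (hgk : ∀ j : ℕ, 0 < j → j ≤ J → ∀ z : Fin n → ℝ, (∀ c, |z c| ≤ 2 * (2 ^ j * ℓ)) →
      ENNReal.ofReal (Γ * (2 : ℝ) ^ (-((n + σ) * j))) ≤ K z)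
    (hX : ∀ j : ℕ, j ≤ J → μ * (∑ c : Fin n, ⨆ k : ℕ, 4 ^ k *
        ENNReal.ofReal (sm n (2 ^ j * ℓ) (Pi.single c ((2 : ℝ)⁻¹ ^ k)))) +
      2⁻¹ * ∫⁻ z, K z * ENNReal.ofReal (sm n (2 ^ j * ℓ) z) ≤ ENNReal.ofReal X)
    {ns : ℝ} (hns : N ≤ ns * L ^ n) (hCas : Ca ≤ ns * v₁)
    {ω0 lam mu ρ : ℝ} (hω0 : 0 < ω0) (hlam0 : 0 < lam) (hlm : lam ≤ mu) (hmu : mu < 1)
    (hρ : 0 ≤ ρ) (hmuρ : mu = ρ ^ 2) (hlam2 : lam * ((2 : ℝ) ^ n) ^ 2 * mu = 1)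
    (hlams : (2 : ℝ) ^ σ * lam ≤ mu) (hlamn : lam * (2 : ℝ) ^ n = (2 : ℝ) ^ (-σ))
    {ξ : ℝ} (hξ : ξ = 1 / (ω0 * (ℓ ^ n) ^ 2))
    {N1 A1 es H T q a2 : ℝ} (hN1 : N1 = ns + ω0 / (1 - lam))
    (hA1 : A1 = (2 + √(7 / (1 - lam))) * v₁ * N1 + 25 * ω0 * v₁ + X)
    (hes : es = ω0 * A1 / (1 - lam))
    (hHdef : H = √(2 * (ξ + ω0)) + √(ξ + ω0) + √((2 : ℝ) ^ σ * es / (ℓ ^ n * Γ)))
    (ha2 : a2 = (4 * N1 + 1 / ℓ ^ n) / (1 - (2 : ℝ) ^ (-σ)))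
    (hT : T = tol * (2 : ℝ) ^ (σ * J) / (ℓ ^ n * Γ) +
      Ca * √(a2 * ω0) * (2 : ℝ) ^ σ / (ℓ ^ n * Γ) * (2 : ℝ) ^ (-((n - σ) / 2 * J)))
    (hq : q = (2 : ℝ) ^ (-σ / 4))
    (c2 : es ≤ e / 2 * (g / 2 * r₁ ^ 2))
    (c3 : √(ξ + ω0) + H / (1 - ρ) + √T / (1 - q) ≤ √e * √r₁) :
    g / 2 * r₁ ^ 2 * (1 - 2 * e) * L ^ n ≤ E ∧
      (1 - 5 / 2 * √e) * (N / L ^ n) ≤ Q / (L ^ n) ^ 2 := by
  have hLpos : 0 < L := Fact.out
  set V : ℝ := L ^ n with hVdef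
  have hV : (0 : ℝ) < V := by positivity
  have hM0 : (0 : ℝ) < ℓ ^ n := by positivity
  obtain ⟨hvol, -, -, -, -, -, -, -⟩ := hTF n L
  have hVr : V = (volume (Set.univ : Set (Tor n L))).toReal := by
    rw [hvol, ENNReal.toReal_ofReal hV.le]
  obtain ⟨a1, a2', a3, a4, -⟩ := hH n L ℓ (2 ^ J) Nat.one_le_two_pow (by rw [hL]; push_cast; rfl)
  have hcI : (Fintype.card (Fin n → Fin (2 ^ J)) : ℝ) = V / ℓ ^ n := by
    rw [Fintype.card_fun, Fintype.card_fin, Fintype.card_fin, eq_div_iff (by positivity), hVdef]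
    push_cast
    rw [← mul_pow, ← hL]
  set s : ℝ := √e with hs
  have hs0 : 0 ≤ s := Real.sqrt_nonneg e
  have hse : s ^ 2 = e := Real.sq_sqrt he.le
  have hs1 : s ≤ 1 / 10 := by
    rw [hs, show (1 / 10 : ℝ) = √(1 / 100) by
      rw [show (1 / 100 : ℝ) = (1 / 10) ^ 2 by norm_num, Real.sqrt_sq (by norm_num)]]
    exact Real.sqrt_le_sqrt he1
  have hN : (0 : ℝ) ≤ N := Nat.cast_nonneg N
  have hNV : (N : ℝ) / V = r₁ := by rw [hr₁]; field_simp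
  have hgr : 0 < g / 2 * r₁ ^ 2 * V := by positivity
  -- the use of the energy
  have use : ∀ Et : ℝ, 0 ≤ Et → a * Et ≤ 2 / (g * r₁ ^ 2) * (1 + e) * Et := fun Et hEt0 =>
    mul_le_mul_of_nonneg_right ha hEt0
  have use2 : ∀ x : ℝ, 2 / (g * r₁ ^ 2) * (1 + e) * (g / 2 * r₁ ^ 2 * x * V) =
      (1 + e) * x * V := by
    intro x
    field_simp
  have ha₂V : a₂ * V ≤ e * V := mul_le_mul_of_nonneg_right ha₂ hV.le
  -- the lower bound of the energy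
  obtain ⟨R0, hR00, hens0⟩ := triv hLAM hEBC (volume : Measure (Tor n L)) (en μ K v)
    (hf n L ℓ (2 ^ J)) (fun i => a1 _) (fun i x => (a2' _ x).1) (fun i x => (a2' _ x).2) hψ hψ1 hψN
    hψE
  obtain ⟨N0, hN01, hN02, hN03, -⟩ := hBOT (Tor n L) volume (Fin n → Fin (2 ^ J)) (en μ K v)
    (hf n L ℓ (2 ^ J)) (ℓ ^ n) P r₁ a a₂ N N E R0 0 V (fun i => a1 _) (fun i x => (a2' _ x).1)
    (fun i x => (a2' _ x).2) a3 (fun i => a4 _) hM0 hP hr₁0 ha0 ha₂0 hN hN hE hR00 le_rfl hV hVr hcoh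
    hHP hens0
  have hN0 : N0 = N := le_antisymm hN02 hN01
  have hpf1 : pf 1 = 1 := by
    unfold pf
    norm_num
  have h1V : N0 / (r₁ * V) = 1 := by
    rw [hN0, hr₁]
    field_simp
  rw [h1V, hpf1, one_mul] at hN03
  have hEN : g / 2 * r₁ ^ 2 * (1 - 2 * e) * V ≤ E := by
    have h1 := use E hE
    have h2 : (1 - e) * V ≤ 2 / (g * r₁ ^ 2) * (1 + e) * E := by linarith
    have h3 : (1 + e) * (1 - 2 * e) * V ≤ (1 - e) * V := by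
      apply mul_le_mul_of_nonneg_right _ hV.le
      have := mul_nonneg he.le he.le
      linarith
    rw [← use2 (1 - 2 * e)] at h3
    have h4 : 0 < 2 / (g * r₁ ^ 2) * (1 + e) := by positivity
    exact le_of_mul_le_mul_left (h3.trans h2) h4
  refine ⟨hEN, ?_⟩
  -- the chain
  have hlam1 : lam < 1 := lt_of_le_of_lt hlm hmu
  have h1l : 0 < 1 - lam := by linarith
  have hξ0 : 0 < ξ := by rw [hξ]; positivity
  have hρ1 : ρ < 1 := by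
    by_contra h
    have : 1 ≤ ρ ^ 2 := one_le_pow₀ (not_lt.1 h)
    linarith
  have h1ρ : 0 < 1 - ρ := by linarith
  have hq1 : q < 1 := by
    rw [hq]
    exact Real.rpow_lt_one_of_one_lt_of_neg (by norm_num) (by linarith)
  have h1q : 0 < 1 - q := by linarith
  have hns0 : 0 ≤ ns := by
    have : 0 ≤ ns * V := hN.trans hns
    exact nonneg_of_mul_nonneg_left this hV
  have hN10 : 0 ≤ N1 := by rw [hN1]; positivity
  have hA10 : 0 ≤ A1 := by rw [hA1]; positivity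
  have hes0 : 0 ≤ es := by rw [hes]; positivity
  have hr21 : (2 : ℝ) ^ (-σ) < 1 :=
    Real.rpow_lt_one_of_one_lt_of_neg (by norm_num) (by linarith)
  have h1r2 : 0 < 1 - (2 : ℝ) ^ (-σ) := by linarith
  have ha20 : 0 ≤ a2 := by rw [ha2]; positivity
  have hT0 : 0 ≤ T := by rw [hT]; positivity
  have hH0 : 0 ≤ H := by rw [hHdef]; positivity
  have hens := core3 hS hB hM hH hR hSM hG hD hDE hTF hℓ hL hK hv hv0 hv1 he0 hE hQ htol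
    hCa htolE hψ hψs hψ1 hψN hψE hψQ hlow hΓ hX0 hσ hgk hX hns hCas hω0 hlam0 hlm hmu hρ hmuρ
    hlam2 hlams hlamn hξ hN1 hA1 hes hHdef ha2 hT hq
  rw [← hVdef] at hens
  obtain ⟨N', h1, h2, h3, h4⟩ := hBOT (Tor n L) volume (Fin n → Fin (2 ^ J)) (en μ K v)
    (hf n L ℓ (2 ^ J)) (ℓ ^ n) P r₁ a a₂ N (N1 * V) (E + es * V) ((ξ + ω0) * (ℓ ^ n) ^ 2)
    ((√(Q / V ^ 2) + H / (1 - ρ) + √T / (1 - q)) * V) V (fun i => a1 _) (fun i x => (a2' _ x).1)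
    (fun i x => (a2' _ x).2) a3 (fun i => a4 _) hM0 hP hr₁0 ha0 ha₂0 hN (by positivity)
    (by positivity) (by positivity) (by positivity) hV hVr hcoh hHP hens
  have hEt : E + es * V ≤ g / 2 * r₁ ^ 2 * (1 + e) * V := by
    have h5 : es * V ≤ e / 2 * (g / 2 * r₁ ^ 2) * V := mul_le_mul_of_nonneg_right c2 hV.le
    linarith
  have hEt0 : 0 ≤ E + es * V := by positivity
  rw [hcI, Real.sqrt_mul' _ (by positivity), Real.sqrt_sq hM0.le] at h4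
  set ac : ℝ := Q / V ^ 2 with hac
  have hac0 : 0 ≤ ac := by positivity
  have e1 : V / ℓ ^ n * (√(ξ + ω0) * ℓ ^ n) = √(ξ + ω0) * V := by field_simp
  rw [e1] at h4
  have hE3 : a * (E + es * V) ≤ (1 + e) * (1 + e) * V := by
    refine (use _ hEt0).trans ?_
    rw [← use2 (1 + e)]
    exact mul_le_mul_of_nonneg_left hEt (by positivity)
  have h5 : 3 * P * (E + es * V) / r₁ ≤ 3 / 2 * e * (1 + e) * V := by
    rw [div_le_iff₀ hr₁0]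
    calc 3 * P * (E + es * V) ≤ 3 * P * (g / 2 * r₁ ^ 2 * (1 + e) * V) := by gcongr
      _ = 3 / 2 * (P * (g * r₁)) * ((1 + e) * V * r₁) := by ring
      _ ≤ 3 / 2 * e * ((1 + e) * V * r₁) := by gcongr
      _ = 3 / 2 * e * (1 + e) * V * r₁ := by ring
  have h6 : 3 * V ≤ 3 * N' / r₁ := by
    rw [le_div_iff₀ hr₁0]
    have h7 : (N : ℝ) ≤ N' := h1
    rw [hr₁] at h7
    linarith
  have h7 : (2 - s / 2) * V ≤
      3 * N' / r₁ - 3 * P * (E + es * V) / r₁ - a * (E + es * V) - a₂ * V := by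
    have h8 : (2 - s / 2) ≤ 3 - 3 / 2 * e * (1 + e) - (1 + e) * (1 + e) - e := by
      have h10 : e ≤ s / 10 := by
        rw [← hse]
        have := mul_le_mul_of_nonneg_left hs1 hs0
        linarith only [this]
      have h11 : e * e ≤ 1 / 100 * e := mul_le_mul_of_nonneg_right he1 he.le
      linarith only [h10, h11, hs0]
    have h12 := mul_le_mul_of_nonneg_right h8 hV.le
    linarith
  have hsr : 0 ≤ √r₁ := Real.sqrt_nonneg _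
  have h8 : √r₁ / 2 * ((2 - s / 2) * V) - √(ξ + ω0) * V ≤
      (√ac + H / (1 - ρ) + √T / (1 - q)) * V :=
    le_trans (sub_le_sub_right (mul_le_mul_of_nonneg_left h7 (by positivity)) _) h4
  have h9 : (√r₁ * (1 - 1 / 4 * s) - √(ξ + ω0)) * V ≤
      (√ac + H / (1 - ρ) + √T / (1 - q)) * V := by linarith
  have h10 := le_of_mul_le_mul_right h9 hV
  have h11 : √r₁ * (1 - 5 / 4 * s) ≤ √ac := by linarith
  have h12 : 0 ≤ 1 - 5 / 4 * s := by linarith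
  have h13 : (√r₁ * (1 - 5 / 4 * s)) ^ 2 ≤ ac := by
    have := pow_le_pow_left₀ (by positivity) h11 2
    rwa [Real.sq_sqrt hac0] at this
  rw [mul_pow, Real.sq_sqrt hr₁0.le] at h13
  rw [hNV]
  refine le_trans ?_ h13
  have h14 : 1 - 5 / 2 * s ≤ (1 - 5 / 4 * s) ^ 2 := by
    have h16 := mul_nonneg hs0 hs0
    linarith only [h16, hs0]
  calc (1 - 5 / 2 * s) * r₁ ≤ (1 - 5 / 4 * s) ^ 2 * r₁ := by gcongr
    _ = _ := by ring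

end

end Pool.Agent.TH268.CD
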