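import Pool.Agent.TH268.CC.Stm
import Pool.Agent.W761.CC.Stms

/-!
# Complete condensation in the canonical ensemble: statements of the new parts
-/

set_option autoImplicit false

open MeasureTheory
open scoped ENNReal

namespace Pool.Agent.TH268.CD

open Pool.Agent.W761.CB Pool.Agent.W761.CC Pool.Agent.TH268.CC

noncomputable section

/-- the upper bound of the energy on the torus, with a bound of the pair density -/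
def S_UPT2 : Prop := ∀ (n : ℕ) (μ a : ℝ) (v : ℝ → ℝ≥0∞) (f : (Fin n → ℝ) → ℝ), 1 ≤ n → 0 < μ →
  Measurable v → Measurable f → (∀ z, f (-z) = f z) → (∀ z, 0 ≤ f z ∧ f z ≤ 1) → 1 ≤ a →
  (∀ z, z ∉ cube n a → f z = 1) → QD μ v Set.univ f ≠ ⊤ →
  ∃ C : ℝ, 0 ≤ C ∧ ∀ (L : ℝ) [Fact (0 < L)] (K : (Fin n → ℝ) → ℝ≥0∞) (κ z : ℝ),
    8 * a ≤ L → Measurable K → 0 ≤ κ → 0 < z → z ≤ 1 →
    ∫⁻ w, K w * ENNReal.ofReal (min 1 (el w ^ 2)) ≤ ENNReal.ofReal κ →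
    ∃ φ : Multiset (Tor n L) → ℂ, EB φ ∧ nE volume φ = 1 ∧
      ENNReal.ofReal (z * (1 - C * z) * L ^ n) ≤ nuE volume φ ∧
      nuE volume φ ≤ ENNReal.ofReal (z * L ^ n) ∧
      (∀ x y, nE volume (an y (an x φ)) ≤ ENNReal.ofReal (z ^ 2)) ∧
      en (ENNReal.ofReal μ) K v φ ≤ ENNReal.ofReal (z ^ 2 * L ^ n) * QD μ v Set.univ f +
        ENNReal.ofReal (C * z ^ 2 * (z + κ) * L ^ n)

/-- the number of missing particles of a vector whose pair density is at most `z ^ 2` -/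
def S_DMB : Prop := ∀ (X : Type) [MeasurableSpace X] (ν : Measure X) [IsFiniteMeasure ν] (N : ℕ)
    (C z V : ℝ) (φ : Multiset X → ℂ), 0 ≤ C → 0 < z → 0 < V → ν Set.univ = ENNReal.ofReal V →
  (N : ℝ) = z * V → EB φ → nE ν φ = 1 →
  ENNReal.ofReal (z * (1 - C * z) * V) ≤ nuE ν φ → nuE ν φ ≤ ENNReal.ofReal (z * V) →
  (∀ x y, nE ν (an y (an x φ)) ≤ ENNReal.ofReal (z ^ 2)) →
  dm ν N φ ≤ ENNReal.ofReal (√(2 * C * z) * (z * V) + √(z * V))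

/-- the parameters -/
def S_PAR3 : Prop := ∀ (n : ℕ), 3 ≤ n → ∀ (σ g CP c τ v₁ G e : ℝ), 0 < σ → σ < n → g + 1 < n →
  0 < CP → 0 < c → 0 < τ → 0 < v₁ → 0 < G → 0 < e →
  ∃ lam mu r q : ℝ, 0 < lam ∧ lam ≤ mu ∧ mu < 1 ∧ 0 ≤ r ∧ mu = r ^ 2 ∧
    lam * ((2 : ℝ) ^ n) ^ 2 * mu = 1 ∧ (2 : ℝ) ^ σ * lam ≤ mu ∧
    lam * (2 : ℝ) ^ n = (2 : ℝ) ^ (-σ) ∧ q = (2 : ℝ) ^ (-σ / 4) ∧
  ∃ lam0 δ₀ η4 : ℝ, 0 < lam0 ∧ lam0 ≤ 1 ∧ 0 < δ₀ ∧ 0 < η4 ∧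
    ∀ δ : ℝ, 0 < δ → δ ≤ δ₀ → δ ≤ 1 ∧
    ∀ ℓ : ℝ, lam0 * δ ^ (-(1 / 2 : ℝ)) / 2 ≤ ℓ → ℓ ≤ lam0 * δ ^ (-(1 / 2 : ℝ)) →
      CP * 2 ^ ((n : ℝ) + 2) * ℓ ^ (2 : ℝ) * (G * δ) ≤ e ∧
      ∃ ω0 : ℝ, 0 < ω0 ∧ ω0 ≤ (1 - lam) * δ ∧ ∀ ξ N1 A1 es H T : ℝ, T ≤ η4 * δ →
        ξ = 1 / (ω0 * (ℓ ^ n) ^ 2) → N1 = δ + ω0 / (1 - lam) →
        A1 = (2 + √(7 / (1 - lam))) * v₁ * N1 + 25 * ω0 * v₁ + 64 * n / lam0 ^ 2 * (τ * δ) →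
        es = ω0 * A1 / (1 - lam) →
        H = √(2 * (ξ + ω0)) + √(ξ + ω0) + √((2 : ℝ) ^ σ * es /
          (ℓ ^ n * (c * δ ^ (g + n / 2) * (1 + 2 * √n) ^ (-(n + σ))))) →
        es ≤ e * G * δ ^ 2 / 16 ∧
        √(ξ + ω0) + H / (1 - r) + √T / (1 - q) ≤ √e * √δ / 2

end

end Pool.Agent.TH268.CD
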