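import Pool.Agent.TH268.CD.AtL3
import Pool.Agent.TH268.CC.Main2
import Pool.Agent.TH268.CD.Stm
import Pool.Agent.W761.CC.HP
import Pool.Agent.W761.CC.HPar

/-!
# Complete condensation in the canonical ensemble: the main theorem from the parts
-/

set_option autoImplicit false

open MeasureTheory
open scoped ENNReal

namespace Pool.Agent.TH268.CD

open Pool.Agent.W761.CB Pool.Agent.W761.CC Pool.Agent.TH268.CC

noncomputable section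

/-- The main theorem, general form. -/
def S_CMAIN : Prop := ∀ (n : ℕ) (μ σ g τ c : ℝ) (v : ℝ → ℝ≥0∞), 3 ≤ n → 0 < μ → 0 < σ →
  σ < n → g + 1 < n → 0 < τ → 0 < c → Measurable v →
  ∫⁻ z : Fin n → ℝ, v (el z) ≠ 0 → ∫⁻ z : Fin n → ℝ, v (el z) ≠ ⊤ →
  0 < scat n μ v ∧ ∀ ε : ℝ, 0 < ε → ∃ ρ₀ : ℝ, 0 < ρ₀ ∧ ∀ ρ : ℝ, 0 < ρ → ρ ≤ ρ₀ →
    ∃ c₁ L₀ : ℝ, 0 < c₁ ∧
    ∀ (L : ℝ) [Fact (0 < L)] (K : (Fin n → ℝ) → ℝ≥0∞), L₀ ≤ L → Measurable K →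
    ∫⁻ z, K z * ENNReal.ofReal (min 1 (el z ^ 2)) ≤ ENNReal.ofReal ρ₀ →
    ∫⁻ z, K z * ENNReal.ofReal (min 1 (ρ * el z ^ 2)) ≤ ENNReal.ofReal (τ * ρ) →
    (∀ z, ENNReal.ofReal (c * ρ ^ (g + n / 2) * (1 + √ρ * el z) ^ (-(n + σ))) ≤ K z) →
    ∀ N : ℕ, ρ / 2 * L ^ n ≤ N → (N : ℝ) ≤ ρ * L ^ n →
    ∀ Ψ : (Fin N → Tor n L) → ℂ, IsWf2 Ψ →
      (∀ Φ : (Fin N → Tor n L) → ℂ, IsWf Φ →
        enN (ENNReal.ofReal μ) K v Ψ ≤
          enN (ENNReal.ofReal μ) K v Φ + ENNReal.ofReal (c₁ * L ^ (n - σ))) →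
      (1 - ε) * N ≤ condN Ψ ∧
      ENNReal.ofReal ((1 - ε) * (scat n μ v / 2 * (N ^ 2 / L ^ n))) ≤
        enN (ENNReal.ofReal μ) K v Ψ ∧
      enN (ENNReal.ofReal μ) K v Ψ ≤
        ENNReal.ofReal ((1 + ε) * (scat n μ v / 2 * (N ^ 2 / L ^ n)))

theorem upper3 {n N : ℕ} {L μ G e C κ z e' v₁ : ℝ} [Fact (0 < L)]
    {K : (Fin n → ℝ) → ℝ≥0∞} {v : ℝ → ℝ≥0∞} {f : (Fin n → ℝ) → ℝ} {φ : Multiset (Tor n L) → ℂ}
    (hφ : EB φ) (hφ1 : nE volume φ = 1)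
    (hφE : en (ENNReal.ofReal μ) K v φ ≤ ENNReal.ofReal (z ^ 2 * L ^ n) * QD μ v Set.univ f +
        ENNReal.ofReal (C * z ^ 2 * (z + κ) * L ^ n))
    (hφD : dm volume N φ ≤ ENNReal.ofReal (√(2 * C * z) * (z * L ^ n) + √(z * L ^ n)))
    (hQ : QD μ v Set.univ f ≤ ENNReal.ofReal (G / 2 + G * e / 16))
    (hlow : ∀ F : Multiset (Tor n L) → ℂ, EB F → ENNReal.ofReal e' * nE volume F ≤
      en (ENNReal.ofReal μ) K v F + ENNReal.ofReal (N * v₁ / L ^ n) * dm volume N F)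
    (hNz : (N : ℝ) = z * L ^ n) (hG : 0 < G) (he : 0 < e)
    (hC : 0 ≤ C) (hκ : 0 ≤ κ) (hz : 0 < z) (hv₁ : 0 ≤ v₁)
    (h1 : C * z ≤ G * e / 64) (h2 : C * κ ≤ G * e / 64) (h3 : v₁ * √(2 * C * z) ≤ G * e / 64)
    (h4 : v₁ ≤ G * e / 64 * √(z * L ^ n)) :
    e' ≤ G / 2 * z ^ 2 * (1 + e / 4) * L ^ n := by
  have hLpos : 0 < L := Fact.out
  have hV : 0 < L ^ n := by positivity
  have a1 := hlow φ hφ
  rw [hφ1, mul_one] at a1
  have hs0 : 0 ≤ √(z * L ^ n) := Real.sqrt_nonneg _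
  have hss : √(z * L ^ n) * √(z * L ^ n) = z * L ^ n := Real.mul_self_sqrt (by positivity)
  have hNv : N * v₁ / L ^ n = z * v₁ := by rw [hNz]; field_simp
  have a2 : ENNReal.ofReal e' ≤
      ENNReal.ofReal (z ^ 2 * L ^ n) * ENNReal.ofReal (G / 2 + G * e / 16) +
        ENNReal.ofReal (C * z ^ 2 * (z + κ) * L ^ n) + ENNReal.ofReal (z * v₁) *
          ENNReal.ofReal (√(2 * C * z) * (z * L ^ n) + √(z * L ^ n)) := by
    calc ENNReal.ofReal e'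
        ≤ en (ENNReal.ofReal μ) K v φ + ENNReal.ofReal (N * v₁ / L ^ n) * dm volume N φ := a1
      _ ≤ ENNReal.ofReal (z ^ 2 * L ^ n) * QD μ v Set.univ f +
        ENNReal.ofReal (C * z ^ 2 * (z + κ) * L ^ n) + ENNReal.ofReal (N * v₁ / L ^ n) *
          ENNReal.ofReal (√(2 * C * z) * (z * L ^ n) + √(z * L ^ n)) := by gcongr
      _ ≤ _ := by rw [hNv]; gcongr
  rw [← ENNReal.ofReal_mul (by positivity), ← ENNReal.ofReal_mul (by positivity),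
    ← ENNReal.ofReal_add (by positivity) (by positivity),
    ← ENNReal.ofReal_add (by positivity) (by positivity),
    ENNReal.ofReal_le_ofReal_iff (by positivity)] at a2
  have hz2 : 0 < z ^ 2 * L ^ n := by positivity
  have b1 := mul_le_mul_of_nonneg_left h1 hz2.le
  have b2 := mul_le_mul_of_nonneg_left h2 hz2.le
  have b3 := mul_le_mul_of_nonneg_left h3 hz2.le
  have b4 : z * √(z * L ^ n) * v₁ ≤ z * √(z * L ^ n) * (G * e / 64 * √(z * L ^ n)) :=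
    mul_le_mul_of_nonneg_left h4 (by positivity)
  have e4 : z * √(z * L ^ n) * (G * e / 64 * √(z * L ^ n)) = z ^ 2 * L ^ n * (G * e / 64) := by
    calc z * √(z * L ^ n) * (G * e / 64 * √(z * L ^ n)) =
        z * (G * e / 64) * (√(z * L ^ n) * √(z * L ^ n)) := by ring
      _ = _ := by rw [hss]; ring
  rw [e4] at b4
  have e2 : C * z ^ 2 * (z + κ) * L ^ n = z ^ 2 * L ^ n * (C * z) + z ^ 2 * L ^ n * (C * κ) := by
    ring
  have e3 : z * v₁ * (√(2 * C * z) * (z * L ^ n) + √(z * L ^ n)) =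
      z ^ 2 * L ^ n * (v₁ * √(2 * C * z)) + z * √(z * L ^ n) * v₁ := by ring
  rw [e2, e3] at a2
  linarith only [a2, b1, b2, b3, b4]

theorem main3_of (hPAR : S_PAR3) (hDMB : S_DMB) (hUPT : S_UPT2)
    (hS : S_STEP2) (hB : S_BASE2) (hBOT : Pool.Agent.W160.CC.S_BOT2') (hM : S_MOM)
    (hH : S_HAT) (hR : S_REF) (hSM : S_SM) (hG : S_GK) (hD : S_DIA) (hDE : S_DE) (hTF : S_TF)
    (hCOH : S_COH) (hLA : S_LA) (hCONV : S_CONV2) (hLOWC : S_LOWC) (hTRIAL : S_TRIAL)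
    (hTRUNC : S_TRUNC) (hLAM : S_LAM) (hEBC : S_EBC) (hBLK : S_BLK) (hTRANS : S_TRANS)
    (hGPOS : S_GPOS) (hCAP : S_CAP) (hSYM : S_SYM) (hLAY : S_LAY) (hCRD : S_CRD)
    (hTR : S_TR) (hCVX : S_CVX) : S_CMAIN := by
  intro n μ σ g τ c v hn hμ hσ hσn hgn hτ hc hv hv0 hvt
  have hn1 : 1 ≤ n := by omega
  have hn3 : (3 : ℝ) ≤ n := by exact_mod_cast hn
  set v₁ : ℝ := (∫⁻ z : Fin n → ℝ, v (el z)).toReal with hv₁
  have hv₁0 : 0 < v₁ := ENNReal.toReal_pos hv0 hvt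
  have hv1 : ∫⁻ z : Fin n → ℝ, v (el z) ≤ ENNReal.ofReal v₁ := by
    rw [hv₁, ENNReal.ofReal_toReal hvt]
  have hG0 : 0 < scat n μ v := hGPOS n μ v hn hμ hv hv0 hvt
  refine ⟨hG0, fun ε hε => ?_⟩
  have hcap0 := hCAP n μ v hn1 hμ hv hvt hG0
  have hsym0 := hSYM n μ v hv hvt
  set G : ℝ := scat n μ v with hGdef
  set e : ℝ := min (1 / 100) (min (ε / 2) ((ε / 3) ^ 2)) with he
  have he0 : 0 < e := lt_min (by norm_num) (lt_min (by positivity) (by positivity))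
  have he1 : e ≤ 1 / 100 := min_le_left _ _
  have he2 : e ≤ ε / 2 := (min_le_right _ _).trans (min_le_left _ _)
  have he9 : 5 / 2 * √e ≤ ε := by
    have h1 : √e ≤ ε / 3 := by
      rw [Real.sqrt_le_left (by positivity)]
      exact (min_le_right _ _).trans (min_le_right _ _)
    linarith
  have hse0 : 0 ≤ √e := Real.sqrt_nonneg e
  obtain ⟨εc, hεc⟩ : ∃ εc : ℝ, εc = e / 20 := ⟨_, rfl⟩
  have hεc0 : 0 < εc := by rw [hεc]; positivity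
  have hεc1 : εc < 1 := by rw [hεc]; linarith
  obtain ⟨r₀, hr₀, hcap⟩ := hcap0 εc hεc0 hεc1
  obtain ⟨γ₀, hγ₀⟩ : ∃ γ₀ : ℝ, γ₀ = G / 2 * (1 - εc) := ⟨_, rfl⟩
  rw [← hγ₀] at hcap
  have hγ₀0 : 0 < γ₀ := by
    have : 0 < 1 - εc := by linarith
    rw [hγ₀]; positivity
  obtain ⟨CP, hCPd⟩ : ∃ CP : ℝ, CP = n * 2 ^ n / μ := ⟨_, rfl⟩
  have hCP : 0 < CP := by rw [hCPd]; positivity
  obtain ⟨CA0, b₀, hCA0, hb₀, hla⟩ := hLA n 2 CP v hn1 two_pos (by linarith) hCP.le hv hv0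
  set CA : ℝ := CA0 + 1 with hCA
  have hCApos : 0 < CA := by rw [hCA]; linarith
  obtain ⟨lam, mu, r', q, hlam0, hlm, hmu1, hr'0, hmur, hlam2, hlams, hlamn, hq, lam0, δp, η4,
    hl00, hl01, hδp, hη4, hpar3⟩ := hPAR n hn σ g CP c (μ + τ) v₁ G e hσ hσn hgn hCP hc
      (by positivity) hv₁0 hG0 he0
  have hlam1 : lam < 1 := lt_of_le_of_lt hlm hmu1
  have h1l : 0 < 1 - lam := by linarith
  obtain ⟨δh, hδh, hhp⟩ := hpar n hn G γ₀ εc e CP CA b₀ r₀ (lam0 * √G / 2) hG0 he0 he1 hεc hγ₀ hCP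
    hCApos hb₀ hr₀ (by positivity)
  obtain ⟨f, af, hfm, hfe, hf01, haf, hfa, hfQ⟩ := hsym0 (G * e / 16) (by positivity)
  obtain ⟨C, hC0, hupt⟩ := hUPT n μ af v f hn1 hμ hv hfm hfe hf01 haf hfa
    (ne_top_of_le_ne_top ENNReal.ofReal_ne_top hfQ)
  obtain ⟨ρ₀, hρ₀⟩ : ∃ ρ₀ : ℝ, ρ₀ = min (min δp (δh / G)) (min 1 (min
    (G * e / (64 * (C + 1))) ((G * e / (64 * v₁)) ^ 2 / (2 * (C + 1))))) := ⟨_, rfl⟩
  have hρ₀0 : 0 < ρ₀ := by
    rw [hρ₀]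
    exact lt_min (lt_min hδp (by positivity)) (lt_min one_pos (lt_min (by positivity)
      (by positivity)))
  have hρ₀1 : ρ₀ ≤ 1 := by
    rw [hρ₀]
    exact (min_le_right _ _).trans (min_le_left _ _)
  have hρ₀p : ρ₀ ≤ δp := by
    rw [hρ₀]
    exact (min_le_left _ _).trans (min_le_left _ _)
  have hρ₀h : ρ₀ ≤ δh / G := by
    rw [hρ₀]
    exact (min_le_left _ _).trans (min_le_right _ _)
  have hs1 : C * ρ₀ ≤ G * e / 64 := by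
    have h1 : ρ₀ ≤ G * e / (64 * (C + 1)) := by
      rw [hρ₀]
      exact ((min_le_right _ _).trans (min_le_right _ _)).trans (min_le_left _ _)
    rw [le_div_iff₀ (by positivity)] at h1
    linarith only [h1, hρ₀0]
  have hs2 : v₁ * √(2 * C * ρ₀) ≤ G * e / 64 := by
    have h1 : ρ₀ ≤ (G * e / (64 * v₁)) ^ 2 / (2 * (C + 1)) := by
      rw [hρ₀]
      exact ((min_le_right _ _).trans (min_le_right _ _)).trans (min_le_right _ _)
    rw [le_div_iff₀ (by positivity)] at h1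
    have h2 : √(2 * C * ρ₀) ≤ G * e / (64 * v₁) := by
      rw [Real.sqrt_le_left (by positivity)]
      linarith only [h1, hρ₀0]
    calc v₁ * √(2 * C * ρ₀) ≤ v₁ * (G * e / (64 * v₁)) := by gcongr
      _ = G * e / 64 := by field_simp
  refine ⟨ρ₀, hρ₀0, ?_⟩
  intro δ hδ hδle0
  have hδh' : G * δ ≤ δh := by
    have h1 := hδle0.trans hρ₀h
    rw [le_div_iff₀ hG0] at h1
    linarith
  obtain ⟨hδ1, hfin⟩ := hpar3 δ hδ (hδle0.trans hρ₀p)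
  set Λ : ℝ := lam0 * δ ^ (-(1 / 2 : ℝ)) with hΛ
  have hΛ0 : 0 < Λ := by positivity
  set Γ : ℝ := c * δ ^ (g + n / 2) * (1 + 2 * √n) ^ (-(n + σ)) with hΓ
  have hΓ0 : 0 < Γ := by positivity
  set κ₀ : ℝ := η4 * δ / 2 * ((Λ / 2) ^ n * Γ) with hκ₀
  have hκ₀0 : 0 < κ₀ := by positivity
  set r2 : ℝ := (2 : ℝ) ^ (-σ) with hr2
  have hr20 : 0 < r2 := by positivity
  have hr21 : r2 < 1 := Real.rpow_lt_one_of_one_lt_of_neg (by norm_num) (by linarith)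
  have h1r2 : 0 < 1 - r2 := by linarith
  set am : ℝ := (8 * δ + 1 / (Λ / 2) ^ n) / (1 - r2) with ham
  have ham0 : 0 < am := by positivity
  set κ₂ : ℝ := δ * v₁ * √(am * δ) * (2 : ℝ) ^ σ / ((Λ / 2) ^ n * Γ) with hκ₂
  have hκ₂0 : 0 < κ₂ := by positivity
  -- the tolerance is small on large tori
  have geo : ∀ (s κ b : ℝ), 0 < s → 0 < κ → 0 < b → ∃ J₀ : ℕ, ∀ J : ℕ, J₀ ≤ J →
      κ * (2 : ℝ) ^ (-(s * J)) ≤ b := by
    intro s κ b hs hκ hb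
    have h1 : (2 : ℝ) ^ (-s) < 1 := Real.rpow_lt_one_of_one_lt_of_neg (by norm_num) (by linarith)
    obtain ⟨J₀, hJ⟩ := exists_pow_lt_of_lt_one (div_pos hb hκ) h1
    refine ⟨J₀, fun J hJJ => ?_⟩
    have h3 : (2 : ℝ) ^ (-(s * J)) = ((2 : ℝ) ^ (-s)) ^ J := by
      rw [← Real.rpow_natCast, ← Real.rpow_mul (by norm_num)]
      congr 1
      ring
    have h4 : ((2 : ℝ) ^ (-s)) ^ J ≤ ((2 : ℝ) ^ (-s)) ^ J₀ :=
      pow_le_pow_of_le_one (by positivity) h1.le hJJ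
    rw [lt_div_iff₀ hκ] at hJ
    rw [h3]
    have h5 := mul_le_mul_of_nonneg_left h4 hκ.le
    linarith only [h5, hJ]
  obtain ⟨J₁, hJ₁⟩ := geo σ κ₀ (G * e / 8 * (δ / 2) ^ 2) hσ hκ₀0 (by positivity)
  obtain ⟨J₂, hJ₂⟩ := geo ((n - σ) / 2) κ₂ (η4 * δ / 2) (by linarith) hκ₂0 (by positivity)
  obtain ⟨J₀, hJ₀⟩ : ∃ J₀ : ℕ, J₀ = max J₁ J₂ := ⟨_, rfl⟩
  obtain ⟨Vm, hVm⟩ : ∃ Vm : ℝ, Vm = (64 * v₁ / (G * e)) ^ 2 / (δ / 2) := ⟨_, rfl⟩
  have hVm0 : 0 < Vm := by rw [hVm]; positivity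
  refine ⟨κ₀ * (Λ / 2) ^ σ / 2, max (max 1 Vm) (max (8 * af) (Λ / 2 * 2 ^ (J₀ + 3))),
    by positivity, ?_⟩
  intro L _ K hL₀ hK hcostA hcostB hLB0
  have hLpos : 0 < L := Fact.out
  have hL1 : 1 ≤ L := (le_max_left _ _).trans ((le_max_left _ _).trans hL₀)
  have hLV : Vm ≤ L := (le_max_right _ _).trans ((le_max_left _ _).trans hL₀)
  have hLa : 8 * af ≤ L := (le_max_left _ _).trans ((le_max_right _ _).trans hL₀)
  have hLJ : Λ / 2 * 2 ^ (J₀ + 3) ≤ L := (le_max_right _ _).trans ((le_max_right _ _).trans hL₀)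
  have hV : (0 : ℝ) < L ^ n := by positivity
  have hVL : Vm ≤ L ^ n := hLV.trans (le_self_pow₀ hL1 (by omega))
  have hPO : PO n L 2 CP (ENNReal.ofReal μ) K := by rw [hCPd]; exact hTRANS n L μ K hμ
  have hPO0 : PO n L 2 CP (ENNReal.ofReal μ) (fun _ => 0) := by
    rw [hCPd]; exact hTRANS n L μ _ hμ
  have hLB : ∀ z, ENNReal.ofReal (c * δ ^ (g + n / 2) *
      (1 + δ ^ (1 / 2 : ℝ) * el z) ^ (-(n + σ))) ≤ K z := by
    intro z
    rw [← Real.sqrt_eq_rpow]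
    exact hLB0 z
  have hcost : ENNReal.ofReal μ * ENNReal.ofReal (δ ^ (2 / 2 : ℝ)) +
      ∫⁻ z, K z * ENNReal.ofReal (min 1 (δ ^ (2 / 2 : ℝ) * el z ^ 2)) ≤
        ENNReal.ofReal ((μ + τ) * δ) := by
    rw [show (2 / 2 : ℝ) = 1 by norm_num, Real.rpow_one, add_mul,
      ENNReal.ofReal_add (by positivity) (by positivity), ENNReal.ofReal_mul hμ.le]
    exact add_le_add le_rfl hcostB
  -- the smallest scale
  have h2J : (1 : ℝ) ≤ 2 ^ (J₀ + 3) := one_le_pow₀ (by norm_num)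
  have hLΛ : 2 ^ (J₀ + 3) ≤ L / (Λ / 2) := by
    rw [le_div_iff₀ (by positivity)]
    linarith
  obtain ⟨J, hJ1, hJ2⟩ := near 2 (L / (Λ / 2)) (by norm_num) (h2J.trans hLΛ)
  have hJJ : J₀ + 3 ≤ J := by
    by_contra hcon
    have h3 : (2 : ℝ) ^ (J + 1) ≤ 2 ^ (J₀ + 3) := pow_le_pow_right₀ (by norm_num) (by omega)
    linarith
  have h2Jp : (0 : ℝ) < 2 ^ J := by positivity
  set ℓ : ℝ := L / 2 ^ J with hℓdef
  have hℓ0 : 0 < ℓ := by positivity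
  have hLℓ : L = 2 ^ J * ℓ := by rw [hℓdef]; field_simp
  have hℓ1 : Λ / 2 ≤ ℓ := by
    rw [hℓdef, le_div_iff₀ h2Jp]
    rw [le_div_iff₀ (by positivity)] at hJ1
    linarith
  have hℓ2 : ℓ ≤ Λ := by
    rw [hℓdef, div_le_iff₀ h2Jp]
    rw [div_lt_iff₀ (by positivity), pow_succ] at hJ2
    linarith
  obtain ⟨hPe, ω0, hω0, hω1, hcond⟩ := hfin ℓ hℓ1 hℓ2
  intro N hNlo hNhi Ψ hΨ hnear
  have hN0 : (0 : ℝ) ≤ N := Nat.cast_nonneg N
  -- the density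
  obtain ⟨r₁, hr₁⟩ : ∃ r₁ : ℝ, r₁ = (N : ℝ) / L ^ n := ⟨_, rfl⟩
  have hNr : (N : ℝ) = r₁ * L ^ n := by rw [hr₁]; field_simp
  have hr₁lo : δ / 2 ≤ r₁ := by rw [hr₁, le_div_iff₀ hV]; exact hNlo
  have hr₁hi : r₁ ≤ δ := by rw [hr₁, div_le_iff₀ hV]; exact hNhi
  have hr₁0 : 0 < r₁ := by linarith
  have hr₁1 : r₁ ≤ 1 := by linarith
  have hr₁ρ : r₁ ≤ ρ₀ := by linarith
  have hNN : scat n μ v / 2 * ((N : ℝ) ^ 2 / L ^ n) = G / 2 * r₁ ^ 2 * L ^ n := by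
    rw [hNr, ← hGdef]
    field_simp
  have hr₁sq : (δ / 2) ^ 2 ≤ r₁ ^ 2 := pow_le_pow_left₀ (by positivity) hr₁lo 2
  -- the blocks
  have hh := hhp (G * r₁) (by positivity) (by
    have := mul_le_mul_of_nonneg_left hr₁hi hG0.le
    linarith)
  have hGr : G * r₁ / G = r₁ := by field_simp
  obtain ⟨s, s₁, b, b₁, r, hℓb, hbb, hr₀r, h4r, hb1, hb₀b, hfin2⟩ := hh ℓ (by
    refine le_trans ?_ hℓ1
    have h1 : (G * r₁) ^ (-(1 / 2 : ℝ)) ≤ 2 / √G * δ ^ (-(1 / 2 : ℝ)) := by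
      have h2 : (G * r₁) ^ (-(1 / 2 : ℝ)) = (√G)⁻¹ * (√r₁)⁻¹ := by
        rw [Real.rpow_neg (by positivity), ← Real.sqrt_eq_rpow, Real.sqrt_mul hG0.le, mul_inv]
      have h3 : δ ^ (-(1 / 2 : ℝ)) = (√δ)⁻¹ := by
        rw [Real.rpow_neg hδ.le, ← Real.sqrt_eq_rpow]
      rw [h2, h3]
      have h4 : √δ / 2 ≤ √r₁ := by
        rw [div_le_iff₀ two_pos]
        have h5 : √r₁ * 2 = √(4 * r₁) := by
          rw [Real.sqrt_mul (by norm_num), show (4 : ℝ) = 2 ^ 2 by norm_num,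
            Real.sqrt_sq (by norm_num), mul_comm]
        rw [h5]
        exact Real.sqrt_le_sqrt (by linarith)
      have h6 : 0 < √δ := Real.sqrt_pos.2 hδ
      have h7 : (√r₁)⁻¹ ≤ 2 * (√δ)⁻¹ := by
        calc (√r₁)⁻¹ ≤ (√δ / 2)⁻¹ := by gcongr
          _ = 2 * (√δ)⁻¹ := by rw [inv_div]; ring
      calc (√G)⁻¹ * (√r₁)⁻¹ ≤ (√G)⁻¹ * (2 * (√δ)⁻¹) := by gcongr
        _ = 2 / √G * (√δ)⁻¹ := by ring
    have hsG : 0 < √G := Real.sqrt_pos.2 hG0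
    calc lam0 * √G / 2 * (G * r₁) ^ (-(1 / 2 : ℝ)) / 2
        ≤ lam0 * √G / 2 * (2 / √G * δ ^ (-(1 / 2 : ℝ))) / 2 := by gcongr
      _ = Λ / 2 := by rw [hΛ]; field_simp)
  rw [hGr] at hfin2
  have hr0 : 0 < r := by linarith
  have hb0 : 0 < b := by linarith
  have hb₁0 : 0 < b₁ := by linarith
  have h1εc : 0 < 1 - εc := by linarith
  obtain ⟨κ, hκ⟩ : ∃ κ : ℝ, κ = 2 * (2 ^ s₁) ^ n := ⟨_, rfl⟩
  have hκ0 : 0 < κ := by rw [hκ]; positivity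
  obtain ⟨X', hX'⟩ : ∃ X' : ℝ, X' = γ₀ * (5 * κ ^ 2 / b ^ n + κ / (εc * (2 * r) ^ n)) *
    (CP * b ^ 2) := ⟨_, rfl⟩
  have hX'0 : 0 ≤ X' := by rw [hX']; positivity
  obtain ⟨haB, ha₂B⟩ := hfin2 κ X' hκ hX'
  obtain ⟨a, ha⟩ : ∃ a : ℝ, a = (1 + X') / (γ₀ * (1 - εc) * r₁ ^ 2) + 12 * (CA * b₁ ^ n) / r₁ :=
    ⟨_, rfl⟩
  obtain ⟨a₂, ha₂⟩ : ∃ a₂ : ℝ, a₂ = γ₀ * (1 / b ^ n) * (κ / b ^ n + κ ^ 2 / b ^ n *
    (4 * n * r / b + 2 * κ * (4 * r / b) ^ n)) / (γ₀ * (1 - εc) * r₁ ^ 2) := ⟨_, rfl⟩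
  rw [← ha] at haB
  rw [← ha₂] at ha₂B
  have ha0 : 0 ≤ a := by rw [ha]; positivity
  have ha₂0 : 0 ≤ a₂ := by rw [ha₂]; positivity
  have hq8 : 8 ≤ 2 ^ J * 2 ^ s * 2 ^ s₁ := by
    have h1 : 2 ^ 3 ≤ 2 ^ J := Nat.pow_le_pow_right (by norm_num) (by omega)
    have h2 : 1 ≤ 2 ^ s := Nat.one_le_two_pow
    have h3 : 1 ≤ 2 ^ s₁ := Nat.one_le_two_pow
    calc 8 = 2 ^ 3 * 1 * 1 := by norm_num
      _ ≤ 2 ^ J * 2 ^ s * 2 ^ s₁ := Nat.mul_le_mul (Nat.mul_le_mul h1 h2) h3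
  have hla1 := fun (F : Multiset (Tor n L) → ℂ) (hF : EB F) =>
    hla L b₁ (2 ^ J * 2 ^ s * 2 ^ s₁) (ENNReal.ofReal μ) K hb₀b (by
      push_cast
      rw [hLℓ, hℓb, hbb]
      ring) hq8 hK hPO F hF
  have hHP : ∀ F : Multiset (Tor n L) → ℂ, EB F → ENNReal.ofReal (ℓ ^ n) *
      ∑ i, ∫⁻ γ, ENNReal.ofReal (pf (((ms γ).map (hf n L ℓ (2 ^ J) i)).sum / (ℓ ^ n * r₁))) *
        ‖F (ms γ)‖ₑ ^ 2 ∂(Pool.Agent.W761.CB.lam (volume : Measure (Tor n L))) ≤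
      ENNReal.ofReal a * en (ENNReal.ofReal μ) K v F +
        ENNReal.ofReal (a₂ * L ^ n) * nE volume F := by
    intro F hF
    have h1 := hp_core hLAY hCRD hTR hCVX hTF hBLK hn1 hK hv hμ hγ₀0 (hcap r hr₀r) hPO0 hCP.le
      hCApos.le hεc0 hεc1 hr0 h4r hb1 hb₁0 hr₁0 (by omega) hLℓ hℓb hbb (fun F hF =>
        (hla1 F hF).1.trans (by
          gcongr
          rw [hCA]
          linarith)) hκ hX' rfl F hF
    rw [← ha] at h1
    refine h1.trans (le_of_eq ?_)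
    congr 3
    rw [ha₂]
    ring
  -- the tolerance
  set tol : ℝ := κ₀ * (2 : ℝ) ^ (-(σ * J)) with htol
  have htol0 : 0 < tol := by positivity
  have htolm : tol ≤ G * e / 8 * r₁ ^ 2 := by
    refine (hJ₁ J (by omega)).trans ?_
    gcongr
  have htolV : κ₀ * (Λ / 2) ^ σ / 2 * L ^ (n - σ) ≤ tol * L ^ n / 2 := by
    have h1 : L ^ ((n : ℝ) - σ) = L ^ n * (2 : ℝ) ^ (-(σ * J)) * ℓ ^ (-σ) := by
      rw [Real.rpow_sub hLpos, Real.rpow_natCast, div_eq_mul_inv, ← Real.rpow_neg hLpos.le]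
      nth_rewrite 2 [hLℓ]
      rw [Real.mul_rpow h2Jp.le hℓ0.le, ← Real.rpow_natCast 2 J, ← Real.rpow_mul (by norm_num)]
      rw [show (J : ℝ) * -σ = -(σ * J) by ring]
      ring
    have h2 : (Λ / 2) ^ σ * ℓ ^ (-σ) ≤ 1 := by
      rw [Real.rpow_neg hℓ0.le, ← div_eq_mul_inv, div_le_one (by positivity)]
      exact Real.rpow_le_rpow (by positivity) hℓ1 hσ.le
    rw [h1]
    calc κ₀ * (Λ / 2) ^ σ / 2 * (L ^ n * (2 : ℝ) ^ (-(σ * J)) * ℓ ^ (-σ))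
        = tol * L ^ n / 2 * ((Λ / 2) ^ σ * ℓ ^ (-σ)) := by rw [htol]; ring
      _ ≤ tol * L ^ n / 2 * 1 := by gcongr
      _ = tol * L ^ n / 2 := mul_one _
  -- the constant wave function
  obtain ⟨Φ₀, hΦ₀, hΦ₀e⟩ := hTRIAL n L v₁ (ENNReal.ofReal μ) K v N hv hv₁0.le hv1
  -- finiteness of the energy
  have hfinite : enN (ENNReal.ofReal μ) K v Ψ ≠ ⊤ := by
    have h2 : enN (ENNReal.ofReal μ) K v Φ₀ +
        ENNReal.ofReal (κ₀ * (Λ / 2) ^ σ / 2 * L ^ ((n : ℝ) - σ)) < ⊤ :=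
      ENNReal.add_lt_top.2 ⟨lt_of_le_of_lt hΦ₀e ENNReal.ofReal_lt_top, ENNReal.ofReal_lt_top⟩
    exact (lt_of_le_of_lt (hnear Φ₀ hΦ₀) h2).ne
  set Ca : ℝ := N * v₁ / L ^ n with hCa
  have hCa0 : 0 ≤ Ca := by positivity
  have hCa1 : Ca ≤ δ * v₁ := by
    rw [hCa, mul_div_right_comm]
    gcongr
    rw [div_le_iff₀ hV]
    exact hNhi
  -- it is enough to consider bounded wave functions
  have red : ∀ ε' : ℝ, 0 < ε' → (1 - 5 / 2 * √e) * N ≤ condN Ψ + ε' ∧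
      ENNReal.ofReal (G / 2 * r₁ ^ 2 * (1 - 2 * e) * L ^ n) ≤
        enN (ENNReal.ofReal μ) K v Ψ + ENNReal.ofReal ε' ∧
      enN (ENNReal.ofReal μ) K v Ψ ≤ ENNReal.ofReal (G / 2 * r₁ ^ 2 * (1 + e) * L ^ n) := by
    intro ε₂ hε₂
    set ε' : ℝ := min ε₂ (tol * L ^ n / 2) with hε'
    have hε'0 : 0 < ε' := lt_min hε₂ (by positivity)
    obtain ⟨Ψ', hΨ', hΨe, hΨc⟩ := hTRUNC n L (ENNReal.ofReal μ) K v N Ψ ε' hK hv hε'0 hΨ hfinite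
    have hnear' : ∀ Φ : (Fin N → Tor n L) → ℂ, IsWf Φ →
        enN (ENNReal.ofReal μ) K v Ψ' ≤
          enN (ENNReal.ofReal μ) K v Φ + ENNReal.ofReal (tol * L ^ n) := by
      intro Φ hΦ
      calc enN (ENNReal.ofReal μ) K v Ψ'
          ≤ enN (ENNReal.ofReal μ) K v Ψ + ENNReal.ofReal ε' := hΨe
        _ ≤ enN (ENNReal.ofReal μ) K v Φ +
            ENNReal.ofReal (κ₀ * (Λ / 2) ^ σ / 2 * L ^ ((n : ℝ) - σ)) +
            ENNReal.ofReal ε' := add_le_add (hnear Φ hΦ) le_rfl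
        _ = enN (ENNReal.ofReal μ) K v Φ +
            ENNReal.ofReal (κ₀ * (Λ / 2) ^ σ / 2 * L ^ ((n : ℝ) - σ) + ε') := by
            rw [add_assoc, ← ENNReal.ofReal_add (by positivity) hε'0.le]
        _ ≤ enN (ENNReal.ofReal μ) K v Φ + ENNReal.ofReal (tol * L ^ n) := by
            refine add_le_add le_rfl (ENNReal.ofReal_le_ofReal ?_)
            have h9 : ε' ≤ tol * L ^ n / 2 := min_le_right _ _
            linarith only [h9, htolV]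
    have hfin' : enN (ENNReal.ofReal μ) K v Ψ' ≠ ⊤ :=
      (lt_of_le_of_lt hΨe (ENNReal.add_lt_top.2 ⟨lt_top_iff_ne_top.2 hfinite,
        ENNReal.ofReal_lt_top⟩)).ne
    set E : ℝ := (enN (ENNReal.ofReal μ) K v Ψ').toReal with hE
    have hE0 : 0 ≤ E := ENNReal.toReal_nonneg
    have hEe : enN (ENNReal.ofReal μ) K v Ψ' = ENNReal.ofReal E := (ENNReal.ofReal_toReal hfin').symm
    set e' : ℝ := max 0 (E - tol * L ^ n) with he'
    have he'0 : 0 ≤ e' := le_max_left _ _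
    have hEe' : E - e' ≤ tol * L ^ n := by
      have : E - tol * L ^ n ≤ e' := le_max_right _ _
      linarith
    have hlow := hLOWC n L v₁ (ENNReal.ofReal μ) K v N e' hK hv hv₁0.le hv1 (by
      intro Φ hΦ
      rcases le_total (E - tol * L ^ n) 0 with h1 | h1
      · rw [he', max_eq_left h1, ENNReal.ofReal_zero]
        exact zero_le
      · rw [he', max_eq_right h1, ENNReal.ofReal_sub _ (by positivity), ← hEe]
        exact tsub_le_iff_right.2 (hnear' Φ hΦ))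
    -- the upper bound of the energy
    obtain ⟨φ, hφ, hφ1, hφN, hφN2, hφP, hφE⟩ := hupt L K ρ₀ r₁ hLa hK hρ₀0.le hr₁0 hr₁1 hcostA
    obtain ⟨hvol, -, -, -, -, -, -, -⟩ := hTF n L
    have hfinm : IsFiniteMeasure (volume : Measure (Tor n L)) :=
      ⟨by rw [hvol]; exact ENNReal.ofReal_lt_top⟩
    have hφD := hDMB (Tor n L) volume N C r₁ (L ^ n) φ hC0 hr₁0 hV hvol hNr hφ hφ1 hφN hφN2 hφP
    have hup0 := upper3 hφ hφ1 hφE hφD hfQ hlow hNr hG0 he0 hC0 hρ₀0.le hr₁0 hv₁0.le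
      (by
        have := mul_le_mul_of_nonneg_left hr₁ρ hC0
        linarith)
      hs1
      (by
        refine le_trans ?_ hs2
        gcongr)
      (by
        have h1 : 64 * v₁ / (G * e) ≤ √(r₁ * L ^ n) := by
          apply Real.le_sqrt_of_sq_le
          have h2 : (64 * v₁ / (G * e)) ^ 2 = Vm * (δ / 2) := by
            rw [hVm]
            field_simp
          rw [h2]
          calc Vm * (δ / 2) ≤ L ^ n * r₁ := by gcongr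
            _ = r₁ * L ^ n := mul_comm _ _
        rw [div_le_iff₀ (by positivity)] at h1
        linarith)
    have hup : E ≤ G / 2 * r₁ ^ 2 * (1 + e / 2) * L ^ n := by
      have h1 := mul_le_mul_of_nonneg_right htolm hV.le
      linarith
    -- Fock space
    obtain ⟨hcn0, F, hF, hFs, hF1, hFN, hFe, hFc⟩ := hCONV n L (ENNReal.ofReal μ) K v N Ψ' hK hv hΨ'
    rw [hEe] at hFe
    have hcoh : ∀ F : Multiset (Tor n L) → ℂ, EB F → ENNReal.ofReal (ℓ ^ n) * nuE volume F ≤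
        ∑ i, nE volume (ag volume (hf n L ℓ (2 ^ J) i) F) +
          ENNReal.ofReal (ℓ ^ n * (CP * 2 ^ ((n : ℝ) + 2) * ℓ ^ (2 : ℝ))) *
            en (ENNReal.ofReal μ) K v F := by
      intro F hF
      have h2q : 2 ≤ 2 ^ J := by
        calc 2 = 2 ^ 1 := rfl
          _ ≤ 2 ^ J := Nat.pow_le_pow_right (by norm_num) (by omega)
      have hℓge : b ≤ ℓ := by
        rw [hℓb]
        calc b = 1 * b := (one_mul b).symm
          _ ≤ 2 ^ s * b := by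
            have : (1 : ℝ) ≤ 2 ^ s := one_le_pow₀ (by norm_num)
            gcongr
      refine (hCOH n L ℓ 2 CP (2 ^ J) (ENNReal.ofReal μ) K hK hCP.le hPO h2q
        (by rw [hLℓ]; push_cast; rfl) (by linarith) F hF).trans ?_
      gcongr
      · exact le_rfl
      · exact le_self_add
    have hXX : ∀ j : ℕ, j ≤ J → ENNReal.ofReal μ * (∑ c : Fin n, ⨆ k : ℕ, 4 ^ k *
        ENNReal.ofReal (sm n (2 ^ j * ℓ) (Pi.single c ((2 : ℝ)⁻¹ ^ k)))) +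
        2⁻¹ * ∫⁻ z, K z * ENNReal.ofReal (sm n (2 ^ j * ℓ) z) ≤
          ENNReal.ofReal (64 * n / lam0 ^ 2 * ((μ + τ) * δ)) := by
      intro j _
      refine cost n 2 δ lam0 (μ + τ) (2 ^ j * ℓ) hδ hl00 hl01 hn1 ?_ (ENNReal.ofReal μ) K hcost
      have h1 : (1 : ℝ) ≤ 2 ^ j := one_le_pow₀ (by norm_num)
      calc lam0 * δ ^ (-(1 / 2 : ℝ)) / 2 ≤ ℓ := hℓ1
        _ = 1 * ℓ := (one_mul _).symm
        _ ≤ 2 ^ j * ℓ := by gcongr
    set Q : ℝ := L ^ n * condN Ψ' with hQ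
    have hQ0 : 0 ≤ Q := by positivity
    have hℓn : (Λ / 2) ^ n ≤ ℓ ^ n := by gcongr
    have hTle : tol * (2 : ℝ) ^ (σ * J) / (ℓ ^ n * Γ) ≤ η4 * δ / 2 := by
      have h1 : (2 : ℝ) ^ (-(σ * J)) * (2 : ℝ) ^ (σ * J) = 1 := by
        rw [← Real.rpow_add (by norm_num)]; simp
      rw [div_le_iff₀ (by positivity)]
      calc tol * (2 : ℝ) ^ (σ * J) = κ₀ * ((2 : ℝ) ^ (-(σ * J)) * (2 : ℝ) ^ (σ * J)) := by
            rw [htol]; ring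
        _ = η4 * δ / 2 * ((Λ / 2) ^ n * Γ) := by rw [h1, mul_one]
        _ ≤ η4 * δ / 2 * (ℓ ^ n * Γ) := by gcongr
    have hωδ : ω0 / (1 - lam) ≤ δ := by
      rw [div_le_iff₀ h1l]
      linarith
    have hω2 : ω0 ≤ δ := by
      have : (1 - lam) * δ ≤ 1 * δ := by gcongr; linarith
      linarith
    have ha2 : (4 * (δ + ω0 / (1 - lam)) + 1 / ℓ ^ n) / (1 - (2 : ℝ) ^ (-σ)) ≤ am := by
      rw [ham, ← hr2]
      have h1 : 1 / ℓ ^ n ≤ 1 / (Λ / 2) ^ n := by gcongr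
      have h2 : 4 * (δ + ω0 / (1 - lam)) ≤ 8 * δ := by linarith
      exact div_le_div_of_nonneg_right (add_le_add h2 h1) h1r2.le
    have hT2le : Ca * √((4 * (δ + ω0 / (1 - lam)) + 1 / ℓ ^ n) / (1 - (2 : ℝ) ^ (-σ)) * ω0) *
        (2 : ℝ) ^ σ / (ℓ ^ n * Γ) * (2 : ℝ) ^ (-((n - σ) / 2 * J)) ≤ η4 * δ / 2 := by
      refine le_trans ?_ (hJ₂ J (by omega))
      rw [hκ₂]
      gcongr
    have hTT : tol * (2 : ℝ) ^ (σ * J) / (ℓ ^ n * Γ) +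
        Ca * √((4 * (δ + ω0 / (1 - lam)) + 1 / ℓ ^ n) / (1 - (2 : ℝ) ^ (-σ)) * ω0) *
        (2 : ℝ) ^ σ / (ℓ ^ n * Γ) * (2 : ℝ) ^ (-((n - σ) / 2 * J)) ≤ η4 * δ := by
      linarith
    obtain ⟨c2, c3⟩ := hcond _ _ _ _ _ _ hTT rfl rfl rfl rfl rfl
    have c2' : ω0 * ((2 + √(7 / (1 - lam))) * v₁ * (δ + ω0 / (1 - lam)) + 25 * ω0 * v₁ +
        64 * n / lam0 ^ 2 * ((μ + τ) * δ)) / (1 - lam) ≤ e / 2 * (G / 2 * r₁ ^ 2) := by
      refine c2.trans ?_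
      calc e * G * δ ^ 2 / 16 = e * G / 4 * (δ / 2) ^ 2 := by ring
        _ ≤ e * G / 4 * r₁ ^ 2 := by gcongr
        _ = _ := by ring
    have hsr : √e * √δ / 2 ≤ √e * √r₁ := by
      have h4 : √δ / 2 ≤ √r₁ := by
        rw [div_le_iff₀ two_pos]
        have h5 : √r₁ * 2 = √(4 * r₁) := by
          rw [Real.sqrt_mul (by norm_num), show (4 : ℝ) = 2 ^ 2 by norm_num,
            Real.sqrt_sq (by norm_num), mul_comm]
        rw [h5]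
        exact Real.sqrt_le_sqrt (by linarith)
      calc √e * √δ / 2 = √e * (√δ / 2) := by ring
        _ ≤ √e * √r₁ := by gcongr
    obtain ⟨res1, res2⟩ := atL3 hBOT hLAM hEBC hS hB hM hH hR hSM hG hD hDE hTF hℓ0 hLℓ hK hv
      hv₁0.le hv1 he'0 hE0 hQ0 htol0.le hCa0 hEe' hF hFs hF1 hFN hFe.le
      (by rw [hFc]) hlow hG0 he0 he1 hr₁0 hNr hup
      (P := CP * 2 ^ ((n : ℝ) + 2) * ℓ ^ (2 : ℝ)) (by positivity)
      (by
        refine le_trans ?_ hPe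
        gcongr) ha0 haB ha₂0 ha₂B hcoh hHP
      (σ := σ) (Γ := Γ) (X := 64 * n / lam0 ^ 2 * ((μ + τ) * δ)) hΓ0 (by positivity) hσ
      (fun j _ _ => kern n 2 σ g δ lam0 c ℓ hδ hσ hl01 hc hℓ0 hℓ2 K hLB j) hXX hNhi hCa1 hω0
      hlam0 hlm hmu1 hr'0 hmur hlam2 hlams hlamn rfl rfl rfl rfl rfl rfl rfl hq c2'
      (c3.trans hsr)
    have h3 : ε' ≤ ε₂ := min_le_left _ _
    refine ⟨?_, ?_, ?_⟩
    · have h1 : (1 - 5 / 2 * √e) * N ≤ condN Ψ' := by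
        have h2 : Q / (L ^ n) ^ 2 = condN Ψ' / L ^ n := by
          rw [hQ]
          field_simp
        rw [h2, mul_div_assoc', div_le_div_iff_of_pos_right hV] at res2
        exact res2
      linarith only [h1, h3, hΨc]
    · refine (ENNReal.ofReal_le_ofReal res1).trans ?_
      rw [← hEe]
      exact hΨe.trans (add_le_add le_rfl (ENNReal.ofReal_le_ofReal h3))
    · refine (hnear Ψ' hΨ').trans ?_
      rw [hEe, ← ENNReal.ofReal_add hE0 (by positivity)]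
      apply ENNReal.ofReal_le_ofReal
      have h1 := mul_le_mul_of_nonneg_right htolm hV.le
      have h2 : 0 ≤ G * e * r₁ ^ 2 * L ^ n := by positivity
      linarith only [hup, htolV, h1, h2]
  have hV2 : 0 ≤ G / 2 * r₁ ^ 2 * L ^ n := by positivity
  refine ⟨?_, ?_, ?_⟩
  · have h1 : (1 - 5 / 2 * √e) * N ≤ condN Ψ :=
      le_of_forall_pos_le_add fun ε' hε' => (red ε' hε').1
    have h2 : (1 - ε) * N ≤ (1 - 5 / 2 * √e) * N :=
      mul_le_mul_of_nonneg_right (by linarith) (Nat.cast_nonneg N)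
    exact h2.trans h1
  · rw [hNN]
    have h1 : ENNReal.ofReal (G / 2 * r₁ ^ 2 * (1 - 2 * e) * L ^ n) ≤
        enN (ENNReal.ofReal μ) K v Ψ := by
      refine ENNReal.le_of_forall_pos_le_add fun ε' hε' _ => ?_
      have h2 := (red ε' (by exact_mod_cast hε')).2.1
      rwa [ENNReal.ofReal_coe_nnreal] at h2
    refine (ENNReal.ofReal_le_ofReal ?_).trans h1
    have h2 := mul_le_mul_of_nonneg_left he2 hV2
    linarith only [h2]
  · rw [hNN]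
    refine (red 1 one_pos).2.2.trans (ENNReal.ofReal_le_ofReal ?_)
    have h2 := mul_le_mul_of_nonneg_left he2 hV2
    have h3 : 0 ≤ (G / 2 * r₁ ^ 2 * L ^ n) * ε := by positivity
    linarith only [h2, h3]

end

end Pool.Agent.TH268.CD
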